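import Pool.Agent.Y708.SF.Polish

/-!
# Resolvability of self-filling families in Polish spaces: the complete characterization

For a Polish space `X` the following are equivalent: `X` is uncountable; there is an irresolvable
self-filling family of compact subsets of `X`; of closed subsets; of Borel subsets; of arbitrary
subsets.  For the Baire space both questions of the problem are answered in the negative, even
for compact sets.
-/

namespace Pool.Agent.Results.MP_0ab388_gt.PolishIffUncountable

universe u

/-- `A` fills `B`: for every `U ∈ B` and `x ∈ U` there is `W ∈ A`, `W ≠ U`, with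
`x ∈ W ⊆ U`. -/
def Fills {X : Type u} (A B : Set (Set X)) : Prop :=
  ∀ U ∈ B, ∀ x ∈ U, ∃ W ∈ A, W ≠ U ∧ x ∈ W ∧ W ⊆ U

/-- A family that fills itself. -/
def SelfFilling {X : Type u} (F : Set (Set X)) : Prop := Fills F F

/-- `F` is a disjoint union of two subfamilies each of which fills `F`. -/
def Resolvable {X : Type u} (F : Set (Set X)) : Prop :=
  ∃ F₀ F₁ : Set (Set X), F₀ ∪ F₁ = F ∧ F₀ ∩ F₁ = ∅ ∧ Fills F₀ F ∧ Fills F₁ F

/-- Let `X` be a Polish space and let `P` be any class of subsets of `X` which contains all
compact sets (compact, closed, Borel, analytic, arbitrary sets).  There is an irresolvable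
self-filling family of sets of the class `P` if and only if `X` is uncountable. -/
theorem result {X : Type u} [TopologicalSpace X] [PolishSpace X] (P : Set X → Prop)
    (hP : ∀ U, IsCompact U → P U) :
    (∃ F : Set (Set X), (∀ U ∈ F, P U) ∧ SelfFilling F ∧ ¬ Resolvable F) ↔ Uncountable X := by
  constructor
  · rintro ⟨F, -, hF, hr⟩
    rw [← not_countable_iff]
    intro h
    exact hr (Pool.Agent.Y708.SF.resolvable_of_countable hF)
  · intro h
    rw [← not_countable_iff] at h
    obtain ⟨F, hF, hs, hr⟩ := Pool.Agent.Y708.SF.exists_irresolvable h
    exact ⟨F, fun U hU => hP U (hF U hU), hs, hr⟩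

end Pool.Agent.Results.MP_0ab388_gt.PolishIffUncountable
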